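import Mathlib

/-!
The partial open neighbourhood assignment game.
-/

namespace Q179.Psi

variable {X : Type} [TopologicalSpace X]

/-- A partial open neighbourhood assignment: a set `Y` of points and an open set `V x ∋ x` for
every `x ∈ Y` (values of `V` outside `Y` play no role). -/
structure PONA (X : Type) [TopologicalSpace X] where
  Y : Set X
  V : X → Set X
  isOpen : ∀ x ∈ Y, IsOpen (V x)
  mem : ∀ x ∈ Y, x ∈ V x

/-- The union of the sets assigned to the points of `D`. -/
def PONA.cover (A : PONA X) (D : Set X) : Set X := ⋃ x ∈ D, A.V x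

/-- The set of points not covered before round `n`. -/
def rest (A : ℕ → PONA X) (D : ℕ → Set X) (n : ℕ) : Set X :=
  {x | ∀ k < n, x ∉ (A k).cover (D k)}

/-- Alice's move in round `n` is legal. -/
def AliceLegal (A : ℕ → PONA X) (D : ℕ → Set X) (n : ℕ) : Prop :=
  (A n).Y ⊆ rest A D n ∧ rest A D n ⊆ (A n).cover (A n).Y

/-- `D` is closed and discrete in `X`. -/
def ClosedDiscrete (D : Set X) : Prop :=
  IsClosed D ∧ ∀ x ∈ D, ∃ U : Set X, IsOpen U ∧ U ∩ D = {x}

/-- Bob's move in round `n` is legal. -/
def BobLegal (A : ℕ → PONA X) (D : ℕ → Set X) (n : ℕ) : Prop :=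
  D n ⊆ (A n).Y ∧ ClosedDiscrete (D n)

/-- The play is won by Bob. -/
def BobWinsPlay (A : ℕ → PONA X) (D : ℕ → Set X) : Prop :=
  ∀ x : X, ∃ n, x ∈ (A n).cover (D n)

/-- The moves of rounds `0, ..., n - 1`, latest first. -/
def hist {α : Type} (x : ℕ → α) : ℕ → List α
  | 0 => []
  | n + 1 => x n :: hist x n

/-- Bob has a winning strategy: `β` gives his answer to Alice's moves so far (latest first). As
long as Alice's moves are legal his answers are legal, and he wins if all of hers are legal. -/
def BobWins (X : Type) [TopologicalSpace X] : Prop :=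
  ∃ β : List (PONA X) → Set X, ∀ A : ℕ → PONA X,
    (∀ n, (∀ k ≤ n, AliceLegal A (fun j => β (hist A (j + 1))) k) →
      BobLegal A (fun j => β (hist A (j + 1))) n) ∧
    ((∀ n, AliceLegal A (fun j => β (hist A (j + 1))) n) →
      BobWinsPlay A (fun j => β (hist A (j + 1))))

/-- Alice has a winning strategy: `α` gives her move for Bob's moves so far (latest first). As
long as Bob's moves are legal hers are legal, and she wins if all of his are legal. -/
def AliceWins (X : Type) [TopologicalSpace X] : Prop :=
  ∃ α : List (Set X) → PONA X, ∀ D : ℕ → Set X,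
    (∀ n, (∀ k < n, BobLegal (fun j => α (hist D j)) D k) →
      AliceLegal (fun j => α (hist D j)) D n) ∧
    ((∀ n, BobLegal (fun j => α (hist D j)) D n) →
      ¬ BobWinsPlay (fun j => α (hist D j)) D)

/-- Every base contains a locally finite cover. -/
def TotallyParacompact (X : Type) [TopologicalSpace X] : Prop :=
  ∀ B : Set (Set X), TopologicalSpace.IsTopologicalBasis B →
    ∃ C : Set (Set X), C ⊆ B ∧ ⋃₀ C = Set.univ ∧ LocallyFinite (fun c : C => (c : Set X))

theorem not_aliceWins (h : BobWins X) : ¬ AliceWins X := by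
  rintro ⟨α, hα⟩
  obtain ⟨β, hβ⟩ := h
  let st : ℕ → List (PONA X) × List (Set X) := fun n => Nat.rec ([], [])
    (fun _ s => (α s.2 :: s.1, β (α s.2 :: s.1) :: s.2)) n
  let A : ℕ → PONA X := fun n => α (st n).2
  let D : ℕ → Set X := fun n => β (α (st n).2 :: (st n).1)
  have hst : ∀ n, st n = (hist A n, hist D n) := by
    intro n
    induction n with
    | zero => rfl
    | succ n ih =>
      have h1 : st (n + 1) = (α (st n).2 :: (st n).1, β (α (st n).2 :: (st n).1) :: (st n).2) := rfl
      have h2 : (hist A (n + 1), hist D (n + 1)) = (A n :: hist A n, D n :: hist D n) := rfl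
      rw [h1, h2]
      change (A n :: (st n).1, D n :: (st n).2) = _
      rw [ih]
  have hA : A = fun j => α (hist D j) := by
    funext j
    change α (st j).2 = _
    rw [hst]
  have hD : D = fun j => β (hist A (j + 1)) := by
    funext j
    change β (α (st j).2 :: (st j).1) = _
    have : hist A (j + 1) = A j :: hist A j := rfl
    rw [this]
    change _ = β (α (st j).2 :: hist A j)
    rw [hst]
  obtain ⟨h1, h2⟩ := hβ A
  obtain ⟨h3, h4⟩ := hα D
  rw [← hD] at h1 h2
  rw [← hA] at h3 h4
  have hleg : ∀ n, AliceLegal A D n ∧ BobLegal A D n := by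
    intro n
    induction n using Nat.strong_induction_on with
    | _ n ih =>
      have ha : AliceLegal A D n := h3 n (fun k hk => (ih k hk).2)
      refine ⟨ha, h1 n (fun k hk => ?_)⟩
      rcases Nat.lt_or_ge k n with h | h
      · exact (ih k h).1
      · have : k = n := le_antisymm hk h
        rw [this]
        exact ha
  exact h4 (fun n => (hleg n).2) (h2 (fun n => (hleg n).1))

end Q179.Psi
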