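import Pool.Agent.Q179.Psi.Game

/-!
The space of Mrówka over a maximal almost disjoint family.
-/

namespace Q179.Psi

/-- An almost disjoint family of infinite sets of natural numbers. -/
def AD (F : Set (Set ℕ)) : Prop :=
  (∀ a ∈ F, a.Infinite) ∧ ∀ a ∈ F, ∀ b ∈ F, a ≠ b → (a ∩ b).Finite

/-- A maximal infinite almost disjoint family exists. -/
theorem exists_mad : ∃ F : Set (Set ℕ), F.Infinite ∧ AD F ∧
    ∀ b : Set ℕ, b.Infinite → ∃ a ∈ F, (a ∩ b).Infinite := by
  let F0 : Set (Set ℕ) := Set.range (fun i : ℕ => {n | (Nat.unpair n).1 = i})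
  have hinf : ∀ i : ℕ, {n : ℕ | (Nat.unpair n).1 = i}.Infinite := by
    intro i
    apply Set.infinite_of_injective_forall_mem (f := fun j => Nat.pair i j)
    · intro j k h
      have := congrArg (fun n => (Nat.unpair n).2) h
      simpa using this
    · intro j
      simp
  have hinj : Function.Injective (fun i : ℕ => {n : ℕ | (Nat.unpair n).1 = i}) := by
    intro i j h
    obtain ⟨n, hn⟩ := (hinf i).nonempty
    have h2 : n ∈ {n : ℕ | (Nat.unpair n).1 = j} := by
      have h3 : {n : ℕ | (Nat.unpair n).1 = i} = {n : ℕ | (Nat.unpair n).1 = j} := h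
      rw [← h3]
      exact hn
    have h4 : (Nat.unpair n).1 = i := hn
    have h5 : (Nat.unpair n).1 = j := h2
    exact h4.symm.trans h5
  have hF0 : AD F0 := by
    constructor
    · rintro _ ⟨i, rfl⟩
      exact hinf i
    · rintro _ ⟨i, rfl⟩ _ ⟨j, rfl⟩ hne
      have hij : i ≠ j := fun h => hne (by rw [h])
      have : {n : ℕ | (Nat.unpair n).1 = i} ∩ {n : ℕ | (Nat.unpair n).1 = j} = ∅ := by
        ext n
        constructor
        · rintro ⟨h1, h2⟩
          exact hij ((show (Nat.unpair n).1 = i from h1).symm.trans h2)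
        · intro h
          exact absurd h (Set.notMem_empty n)
      beta_reduce
      rw [this]
      exact Set.finite_empty
  obtain ⟨F, hF0F, hmax⟩ := zorn_subset_nonempty {F | AD F} (by
    intro c hc hchain _
    refine ⟨⋃₀ c, ⟨?_, ?_⟩, fun s hs => Set.subset_sUnion_of_mem hs⟩
    · rintro a ⟨s, hs, ha⟩
      exact (hc hs).1 a ha
    · rintro a ⟨s, hs, ha⟩ b ⟨t, ht, hb⟩ hab
      rcases hchain.total hs ht with h | h
      · exact (hc ht).2 a (h ha) b hb hab
      · exact (hc hs).2 a ha b (h hb) hab) F0 hF0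
  refine ⟨F, (Set.infinite_range_of_injective hinj).mono hF0F, hmax.prop, ?_⟩
  intro b hb
  by_contra hcon
  push Not at hcon
  have hcon' : ∀ a ∈ F, (a ∩ b).Finite := hcon
  have hbF : b ∉ F := by
    intro h
    have := hcon' b h
    rw [Set.inter_self] at this
    exact hb this
  have hAD : AD (insert b F) := by
    constructor
    · rintro a (rfl | ha)
      · exact hb
      · exact hmax.prop.1 a ha
    · rintro a (rfl | ha) c (rfl | hc) hac
      · exact absurd rfl hac
      · rw [Set.inter_comm]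
        exact hcon' c hc
      · exact hcon' a ha
      · exact hmax.prop.2 a ha c hc hac
  have := hmax.eq_of_subset hAD (Set.subset_insert b F)
  exact hbF (this ▸ Set.mem_insert b F)

/-- The underlying set. -/
def Sp (F : Set (Set ℕ)) : Type := ℕ ⊕ F

variable {F : Set (Set ℕ)}

/-- The isolated point `n`. -/
def nat (n : ℕ) : Sp F := Sum.inl n

/-- The point at infinity of `a`. -/
def pt (a : F) : Sp F := Sum.inr a

/-- `U` is open when for each `a ∈ F` in `U` almost all elements of `a` are in `U`. -/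
instance : TopologicalSpace (Sp F) where
  IsOpen U := ∀ a : F, pt a ∈ U → {n : ℕ | n ∈ (a : Set ℕ) ∧ nat n ∉ U}.Finite
  isOpen_univ := fun a _ => by
    have : {n : ℕ | n ∈ (a : Set ℕ) ∧ (nat n : Sp F) ∉ (Set.univ : Set (Sp F))} = ∅ := by
      ext n
      simp
    rw [this]
    exact Set.finite_empty
  isOpen_inter := fun U V hU hV a ha => by
    refine ((hU a ha.1).union (hV a ha.2)).subset ?_
    rintro n ⟨hn, hn2⟩
    by_cases h : (nat n : Sp F) ∈ U
    · exact Or.inr ⟨hn, fun h2 => hn2 ⟨h, h2⟩⟩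
    · exact Or.inl ⟨hn, h⟩
  isOpen_sUnion := fun S hS a ha => by
    obtain ⟨U, hU, haU⟩ := ha
    refine (hS U hU a haU).subset ?_
    rintro n ⟨hn, hn2⟩
    exact ⟨hn, fun h => hn2 ⟨U, hU, h⟩⟩

theorem isOpen_iff (U : Set (Sp F)) :
    IsOpen U ↔ ∀ a : F, pt a ∈ U → {n : ℕ | n ∈ (a : Set ℕ) ∧ nat n ∉ U}.Finite := Iff.rfl

/-- A basic neighbourhood of the point at infinity of `a`. -/
def bas (a : F) (s : Set ℕ) : Set (Sp F) := {x | x = pt a ∨ ∃ n ∈ (a : Set ℕ), n ∉ s ∧ x = nat n}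

theorem pt_mem_bas (a : F) (s : Set ℕ) : pt a ∈ bas a s := Or.inl rfl

theorem nat_mem_bas {a : F} {s : Set ℕ} {n : ℕ} :
    (nat n : Sp F) ∈ bas a s ↔ n ∈ (a : Set ℕ) ∧ n ∉ s := by
  constructor
  · rintro (h | ⟨m, hm, hm2, h⟩)
    · exact absurd h (by intro h; cases h)
    · have : n = m := Sum.inl.inj h
      rw [this]
      exact ⟨hm, hm2⟩
  · rintro ⟨h1, h2⟩
    exact Or.inr ⟨n, h1, h2, rfl⟩

theorem pt_mem_bas_iff {a b : F} {s : Set ℕ} : (pt b : Sp F) ∈ bas a s ↔ b = a := by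
  constructor
  · rintro (h | ⟨m, hm, hm2, h⟩)
    · exact Sum.inr.inj h
    · cases h
  · rintro rfl
    exact pt_mem_bas b s

theorem isOpen_bas (a : F) {s : Set ℕ} (hs : s.Finite) : IsOpen (bas a s) := by
  intro b hb
  rw [pt_mem_bas_iff] at hb
  subst hb
  refine hs.subset ?_
  rintro n ⟨hn, hn2⟩
  by_contra h
  exact hn2 (nat_mem_bas.2 ⟨hn, h⟩)

theorem isClosed_bas (hF : AD F) (a : F) {s : Set ℕ} : IsClosed (bas a s) := by
  rw [← isOpen_compl_iff]
  intro b hb
  have hba : b ≠ a := by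
    rintro rfl
    exact hb (pt_mem_bas b s)
  refine (hF.2 b.1 b.2 a.1 a.2 (fun h => hba (Subtype.ext h))).subset ?_
  rintro n ⟨hn, hn2⟩
  refine ⟨hn, ?_⟩
  have h3 : (nat n : Sp F) ∈ bas a s := by
    by_contra h
    exact hn2 h
  exact (nat_mem_bas.1 h3).1

theorem isOpen_nat (n : ℕ) : IsOpen ({nat n} : Set (Sp F)) := by
  intro a ha
  cases ha

theorem isClosed_nat (n : ℕ) : IsClosed ({nat n} : Set (Sp F)) := by
  rw [← isOpen_compl_iff]
  intro a _
  refine (Set.finite_singleton n).subset ?_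
  rintro m ⟨_, hm⟩
  have : (nat m : Sp F) = nat n := by
    by_contra h
    exact hm h
  exact Sum.inl.inj this

theorem cases_pt (x : Sp F) : (∃ n, x = nat n) ∨ ∃ a, x = pt a := by
  cases x with
  | inl n => exact Or.inl ⟨n, rfl⟩
  | inr a => exact Or.inr ⟨a, rfl⟩

theorem t3Space (hF : AD F) : T3Space (Sp F) := by
  have ht1 : T1Space (Sp F) := by
    refine ⟨fun x => ?_⟩
    rcases cases_pt x with ⟨n, rfl⟩ | ⟨a, rfl⟩
    · exact isClosed_nat n
    · have : ({pt a} : Set (Sp F)) = bas a (a : Set ℕ) := by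
        ext y
        constructor
        · rintro rfl
          exact pt_mem_bas a _
        · rintro (h | ⟨n, hn, hn2, -⟩)
          · exact h
          · exact absurd hn hn2
      rw [this]
      exact isClosed_bas hF a
  have hreg : RegularSpace (Sp F) := by
    apply RegularSpace.of_exists_mem_nhds_isClosed_subset
    intro x s hs
    obtain ⟨U, hUs, hU, hxU⟩ := mem_nhds_iff.1 hs
    rcases cases_pt x with ⟨n, rfl⟩ | ⟨a, rfl⟩
    · exact ⟨{nat n}, (isOpen_nat n).mem_nhds rfl, isClosed_nat n,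
        (Set.singleton_subset_iff.2 hxU).trans hUs⟩
    · have hfin := hU a hxU
      refine ⟨bas a {n : ℕ | n ∈ (a : Set ℕ) ∧ nat n ∉ U},
        (isOpen_bas a hfin).mem_nhds (pt_mem_bas a _), isClosed_bas hF a, ?_⟩
      refine Set.Subset.trans ?_ hUs
      rintro y (rfl | ⟨n, hn, hn2, rfl⟩)
      · exact hxU
      · by_contra h
        exact hn2 ⟨hn, h⟩
  exact { }

/-- A set with only finitely many isolated points of `ℕ` is closed and discrete. -/
theorem closedDiscrete (hF : AD F) {D : Set (Sp F)} (hD : {n : ℕ | nat n ∈ D}.Finite) :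
    ClosedDiscrete D := by
  constructor
  · rw [← isOpen_compl_iff]
    intro a _
    refine hD.subset ?_
    rintro n ⟨_, hn⟩
    by_contra h
    exact hn h
  · intro x hx
    rcases cases_pt x with ⟨n, rfl⟩ | ⟨a, rfl⟩
    · refine ⟨{nat n}, isOpen_nat n, ?_⟩
      exact Set.inter_eq_left.2 (Set.singleton_subset_iff.2 hx)
    · refine ⟨bas a {n : ℕ | nat n ∈ D}, isOpen_bas a hD, ?_⟩
      ext y
      constructor
      · rintro ⟨h1 | ⟨n, hn, hn2, rfl⟩, h2⟩
        · exact h1
        · exact absurd h2 hn2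
      · rintro rfl
        exact ⟨pt_mem_bas a _, hx⟩

/-- The first answer of Bob: a closed discrete set whose neighbourhoods cover almost all of `ℕ`. -/
theorem exists_first (hF : AD F) (hmad : ∀ b : Set ℕ, b.Infinite → ∃ a ∈ F, (a ∩ b).Infinite)
    (A : PONA (Sp F)) (hA : ∀ x, x ∈ A.cover A.Y) :
    ∃ D : Set (Sp F), D ⊆ A.Y ∧ ClosedDiscrete D ∧ {n : ℕ | nat n ∉ A.cover D}.Finite := by
  let D : ℕ → Set (Sp F) := fun k => {x | x ∈ A.Y ∧ ∀ n, x = nat n → n < k}
  have hmono : ∀ j k, j ≤ k → D j ⊆ D k := fun j k hjk x hx =>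
    ⟨hx.1, fun n hn => lt_of_lt_of_le (hx.2 n hn) hjk⟩
  have hcm : ∀ j k, j ≤ k → A.cover (D j) ⊆ A.cover (D k) := fun j k hjk x hx =>
    Set.biUnion_subset_biUnion_left (hmono j k hjk) hx
  have hopen : ∀ k, IsOpen (A.cover (D k)) := fun k =>
    isOpen_biUnion (fun x hx => A.isOpen x hx.1)
  have hcd : ∀ k, ClosedDiscrete (D k) := by
    intro k
    apply closedDiscrete hF
    refine (Set.finite_lt_nat k).subset ?_
    intro n hn
    exact hn.2 n rfl
  by_contra hcon
  push Not at hcon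
  have hE : ∀ k, {n : ℕ | (nat n : Sp F) ∉ A.cover (D k)}.Infinite := fun k =>
    hcon (D k) (fun x hx => hx.1) (hcd k)
  -- a set meeting every tail outside
  have hch : ∀ k, ∃ n, k ≤ n ∧ (nat n : Sp F) ∉ A.cover (D k) := by
    intro k
    obtain ⟨n, hn, hkn⟩ := (hE k).exists_gt k
    exact ⟨n, hkn.le, hn⟩
  choose c hc1 hc2 using hch
  have hbinf : (Set.range c).Infinite := by
    intro hfin
    obtain ⟨M, hM⟩ := hfin.bddAbove
    have := hM ⟨M + 1, rfl⟩
    have := hc1 (M + 1)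
    omega
  obtain ⟨a, ha, hab⟩ := hmad _ hbinf
  have hpa := hA (pt ⟨a, ha⟩)
  -- `pt a` is covered already by some `D k`
  obtain ⟨k, hk⟩ : ∃ k, (pt ⟨a, ha⟩ : Sp F) ∈ A.cover (D k) := by
    rw [PONA.cover, Set.mem_iUnion₂] at hpa
    obtain ⟨x, hx, hxV⟩ := hpa
    rcases cases_pt x with ⟨n, rfl⟩ | ⟨b, rfl⟩
    · refine ⟨n + 1, Set.mem_biUnion (x := nat n) ⟨hx, fun m hm => ?_⟩ hxV⟩
      have : n = m := Sum.inl.inj hm
      omega
    · refine ⟨0, Set.mem_biUnion (x := pt b) ⟨hx, fun m hm => ?_⟩ hxV⟩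
      cases hm
  have hfin := hopen k ⟨a, ha⟩ hk
  apply hab
  refine (hfin.union ((Set.finite_lt_nat k).image c)).subset ?_
  rintro n ⟨hna, ⟨j, rfl⟩⟩
  rcases Nat.lt_or_ge j k with h | h
  · exact Or.inr ⟨j, h, rfl⟩
  · refine Or.inl ⟨hna, fun h2 => hc2 j (hcm k j h h2)⟩

theorem bobWins (hF : AD F) (hmad : ∀ b : Set ℕ, b.Infinite → ∃ a ∈ F, (a ∩ b).Infinite) :
    BobWins (Sp F) := by
  classical
  let β : List (PONA (Sp F)) → Set (Sp F) := fun l =>
    match l with
    | [A] => if h : ∀ x, x ∈ A.cover A.Y then Classical.choose (exists_first hF hmad A h) else ∅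
    | [A, _] => A.Y
    | _ => ∅
  refine ⟨β, fun A => ?_⟩
  have hfirst : AliceLegal A (fun j => β (hist A (j + 1))) 0 → ∀ x, x ∈ (A 0).cover (A 0).Y := by
    intro h x
    exact h.2 (fun k hk => absurd hk (Nat.not_lt_zero k))
  have hβ0 : ∀ h : (∀ x, x ∈ (A 0).cover (A 0).Y),
      β (hist A 1) = Classical.choose (exists_first hF hmad (A 0) h) := by
    intro h
    change (if h : ∀ x, x ∈ (A 0).cover (A 0).Y then
      Classical.choose (exists_first hF hmad (A 0) h) else ∅) = _
    rw [dif_pos h]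
  have hβ1 : β (hist A 2) = (A 1).Y := rfl
  have hβn : ∀ n, β (hist A (n + 3)) = ∅ := fun n => rfl
  -- the set not covered after the first round
  have hrest : AliceLegal A (fun j => β (hist A (j + 1))) 0 →
      {n : ℕ | (nat n : Sp F) ∈ rest A (fun j => β (hist A (j + 1))) 1}.Finite := by
    intro h0
    have h := hfirst h0
    refine (Classical.choose_spec (exists_first hF hmad (A 0) h)).2.2.subset ?_
    intro n hn
    have := hn 0 Nat.zero_lt_one
    beta_reduce at this
    rw [hβ0 h] at this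
    exact this
  have hemptyCD : ClosedDiscrete (∅ : Set (Sp F)) :=
    ⟨isClosed_empty, fun x hx => absurd hx (Set.notMem_empty x)⟩
  refine ⟨?_, ?_⟩
  · intro n hn
    rcases n with _ | _ | n
    · have h := hfirst (hn 0 le_rfl)
      constructor
      · beta_reduce
        rw [hβ0 h]
        exact (Classical.choose_spec (exists_first hF hmad (A 0) h)).1
      · beta_reduce
        rw [hβ0 h]
        exact (Classical.choose_spec (exists_first hF hmad (A 0) h)).2.1
    · constructor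
      · exact subset_of_eq hβ1
      · beta_reduce
        rw [hβ1]
        apply closedDiscrete hF
        refine (hrest (hn 0 (by omega))).subset ?_
        intro m hm
        exact (hn 1 le_rfl).1 hm
    · constructor
      · beta_reduce
        rw [hβn n]
        exact Set.empty_subset _
      · beta_reduce
        rw [hβn n]
        exact hemptyCD
  · intro hleg x
    by_cases hx : x ∈ (A 0).cover (β (hist A 1))
    · exact ⟨0, hx⟩
    · refine ⟨1, ?_⟩
      have h1 : x ∈ rest A (fun j => β (hist A (j + 1))) 1 := by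
        intro k hk
        have : k = 0 := by omega
        rw [this]
        exact hx
      have h2 := (hleg 1).2 h1
      beta_reduce
      rw [hβ1]
      exact h2

theorem isBasis : TopologicalSpace.IsTopologicalBasis
    {U : Set (Sp F) | (∃ n, U = {nat n}) ∨ ∃ (a : F) (s : Set ℕ), s.Finite ∧ U = bas a s} := by
  apply TopologicalSpace.isTopologicalBasis_of_isOpen_of_nhds
  · rintro U (⟨n, rfl⟩ | ⟨a, s, hs, rfl⟩)
    · exact isOpen_nat n
    · exact isOpen_bas a hs
  · intro x U hx hU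
    rcases cases_pt x with ⟨n, rfl⟩ | ⟨a, rfl⟩
    · exact ⟨{nat n}, Or.inl ⟨n, rfl⟩, rfl, Set.singleton_subset_iff.2 hx⟩
    · refine ⟨bas a {n : ℕ | n ∈ (a : Set ℕ) ∧ nat n ∉ U}, Or.inr ⟨a, _, hU a hx, rfl⟩,
        pt_mem_bas a _, ?_⟩
      rintro y (rfl | ⟨n, hn, hn2, rfl⟩)
      · exact hx
      · by_contra h
        exact hn2 ⟨hn, h⟩

theorem not_totallyParacompact (hF : AD F) (hinf : F.Infinite)
    (hmad : ∀ b : Set ℕ, b.Infinite → ∃ a ∈ F, (a ∩ b).Infinite) :
    ¬ TotallyParacompact (Sp F) := by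
  intro htp
  obtain ⟨C, hCB, hcov, hlf⟩ := htp _ isBasis
  have hmem : ∀ a : F, ∃ s : Set ℕ, s.Finite ∧ bas a s ∈ C := by
    intro a
    have : (pt a : Sp F) ∈ ⋃₀ C := by
      rw [hcov]
      trivial
    obtain ⟨c, hc, hac⟩ := this
    rcases hCB hc with ⟨n, rfl⟩ | ⟨b, s, hs, rfl⟩
    · cases hac
    · have := pt_mem_bas_iff.1 hac
      subst this
      exact ⟨s, hs, hc⟩
  choose s hs hsC using hmem
  -- a sequence of distinct members
  have hinf' : Infinite F := hinf.to_subtype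
  let e : ℕ ↪ F := Infinite.natEmbedding F
  have hpick : ∀ i, ∃ n, i ≤ n ∧ n ∈ (e i : Set ℕ) ∧ n ∉ s (e i) := by
    intro i
    have h1 : ((e i : Set ℕ) \ s (e i)).Infinite := (hF.1 _ (e i).2).sdiff (hs (e i))
    obtain ⟨n, hn, hin⟩ := h1.exists_gt i
    exact ⟨n, hin.le, hn.1, hn.2⟩
  choose p hp1 hp2 hp3 using hpick
  have hpinf : (Set.range p).Infinite := by
    intro hfin
    obtain ⟨M, hM⟩ := hfin.bddAbove
    have := hM ⟨M + 1, rfl⟩
    have := hp1 (M + 1)
    omega
  obtain ⟨a, ha, hap⟩ := hmad _ hpinf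
  obtain ⟨U, hU, hfinU⟩ := hlf (pt ⟨a, ha⟩)
  obtain ⟨V, hVU, hV, haV⟩ := mem_nhds_iff.1 hU
  have hfinV := hV ⟨a, ha⟩ haV
  -- infinitely many members meet `V`
  have hI : {i | p i ∈ a ∧ (nat (p i) : Sp F) ∈ V}.Infinite := by
    intro hfin
    apply hap
    refine ((hfin.image p).union hfinV).subset ?_
    rintro n ⟨hna, ⟨i, rfl⟩⟩
    by_cases h : (nat (p i) : Sp F) ∈ V
    · exact Or.inl ⟨i, ⟨hna, h⟩, rfl⟩
    · exact Or.inr ⟨hna, h⟩
  have hmap : {i | p i ∈ a ∧ (nat (p i) : Sp F) ∈ V} ⊆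
      (fun i => (⟨bas (e i) (s (e i)), hsC (e i)⟩ : C)) ⁻¹'
        {c : C | ((c : Set (Sp F)) ∩ U).Nonempty} := by
    rintro i ⟨-, hi⟩
    exact ⟨nat (p i), nat_mem_bas.2 ⟨hp2 i, hp3 i⟩, hVU hi⟩
  have hinj : Function.Injective (fun i => (⟨bas (e i) (s (e i)), hsC (e i)⟩ : C)) := by
    intro i j h
    have h1 : bas (e i) (s (e i)) = bas (e j) (s (e j)) := congrArg (fun c : C => c.1) h
    have h2 : (pt (e i) : Sp F) ∈ bas (e j) (s (e j)) := by
      rw [← h1]
      exact pt_mem_bas _ _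
    exact e.injective (pt_mem_bas_iff.1 h2)
  exact hI ((hfinU.preimage hinj.injOn).subset hmap)

theorem infinite_sp : Infinite (Sp F) :=
  Infinite.of_injective (fun n : ℕ => (nat n : Sp F)) (fun _ _ h => Sum.inl.inj h)

/-- There is an infinite regular Hausdorff space in which Bob has a winning strategy, but which
is not totally paracompact. -/
theorem exists_space : ∃ (X : Type) (_ : TopologicalSpace X), Infinite X ∧ T3Space X ∧
    BobWins X ∧ ¬ TotallyParacompact X := by
  obtain ⟨F, hinf, hF, hmad⟩ := exists_mad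
  exact ⟨Sp F, inferInstance, infinite_sp, t3Space hF, bobWins hF hmad,
    not_totallyParacompact hF hinf hmad⟩

end Q179.Psi
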